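import Pool.Agent.N805.JG.StmU
import Pool.Agent.N887.JG.ORD

/-!
# JG/ORDU (subtask 8234 of helper805): one-sided comparison of the products of `(x - T)⁺`
-/

set_option autoImplicit false

open MeasureTheory Filter Topology

namespace Pool.Agent.N427.JG

open Pool.Agent.N805.JG Pool.Agent.N887.JG

noncomputable def indu1 (t x : ℝ) : ℝ := if t < x then 1 else 0

noncomputable def indu (I : Finset ℕ) (s x : ℕ → ℝ) : ℝ := if ∀ i ∈ I, s i < x i then 1 else 0

lemma indu1_01 (t x : ℝ) : 0 ≤ indu1 t x ∧ indu1 t x ≤ 1 := by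
  unfold indu1; split_ifs <;> norm_num

lemma indu_01 (I : Finset ℕ) (s x : ℕ → ℝ) : 0 ≤ indu I s x ∧ indu I s x ≤ 1 := by
  unfold indu; split_ifs <;> norm_num

lemma indu1_eq (t x : ℝ) : indu1 t x = 1 - ind1 t x := by
  unfold indu1 ind1
  by_cases h : x ≤ t
  · rw [if_neg (not_lt.2 h), if_pos h, sub_self]
  · rw [if_pos (not_le.1 h), if_neg h, sub_zero]

/-- uniformly approximable on `[0, ∞)` by nonnegative combinations of indicators `1[t < x]` -/
def UU (g : ℝ → ℝ) : Prop := ∀ η : ℝ, 0 < η → ∃ (β : Type) (_ : Fintype β) (c t : β → ℝ),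
  (∀ b, 0 ≤ c b) ∧ ∀ x : ℝ, 0 ≤ x → |g x - ∑ b, c b * indu1 (t b) x| ≤ η

/-- uniformly approximable on the nonnegative sequences by nonnegative combinations of the
indicators of upper orthants -/
def KU (I : Finset ℕ) (f : (ℕ → ℝ) → ℝ) : Prop := ∀ η : ℝ, 0 < η →
  ∃ (β : Type) (_ : Fintype β) (c : β → ℝ) (s : β → ℕ → ℝ),
  (∀ b, 0 ≤ c b) ∧ ∀ x : ℕ → ℝ, (∀ i, 0 ≤ x i) → |f x - ∑ b, c b * indu I (s b) x| ≤ η

lemma UU_of {g g' : ℝ → ℝ} {a : ℝ} (h : U g') (hg : ∀ x, 0 ≤ x → g x = a - g' x)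
    (h0 : g 0 = 0) : UU g := by
  intro η hη
  obtain ⟨β, _, c, t, hc, h1⟩ := h (η / 2) (by positivity)
  refine ⟨β, inferInstance, fun b => if 0 ≤ t b then c b else 0, t, ?_, ?_⟩
  · intro b
    show 0 ≤ if 0 ≤ t b then c b else 0
    split_ifs
    · exact hc b
    · exact le_rfl
  · intro x hx
    have h2 : ∀ y : ℝ, 0 ≤ y → ∑ b, (if 0 ≤ t b then c b else 0) * ind1 (t b) y =
        ∑ b, c b * ind1 (t b) y := by
      intro y hy
      refine Finset.sum_congr rfl fun b _ => ?_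
      by_cases hb : 0 ≤ t b
      · rw [if_pos hb]
      · have : ind1 (t b) y = 0 := by
          unfold ind1
          rw [if_neg]
          intro h3
          exact hb (hy.trans h3)
        rw [this, mul_zero, mul_zero]
    have h3 : ∑ b, (if 0 ≤ t b then c b else 0) * ind1 (t b) 0 =
        ∑ b, (if 0 ≤ t b then c b else 0) := by
      refine Finset.sum_congr rfl fun b _ => ?_
      by_cases hb : 0 ≤ t b
      · unfold ind1
        rw [if_pos hb, if_pos hb, mul_one]
      · rw [if_neg hb, zero_mul]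
    have h4 : ∑ b, (if 0 ≤ t b then c b else 0) * indu1 (t b) x =
        ∑ b, (if 0 ≤ t b then c b else 0) - ∑ b, c b * ind1 (t b) x := by
      rw [← h2 x hx, ← Finset.sum_sub_distrib]
      refine Finset.sum_congr rfl fun b _ => ?_
      rw [indu1_eq, mul_sub, mul_one]
    have h5 := h1 0 le_rfl
    have h6 := h1 x hx
    have h7 := hg 0 le_rfl
    rw [← h2 0 le_rfl, h3] at h5
    rw [h4, hg x hx]
    rw [h0] at h7
    rw [abs_le] at h5 h6 ⊢
    constructor <;> linarith [h5.1, h5.2, h6.1, h6.2]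

lemma UU_one {T K : ℝ} (hT : 0 ≤ T) (hTK : T ≤ K) : UU (fun x => max (min x K - T) 0) := by
  refine UU_of (g' := fun x => (K - T) - max (min x K - T) 0) (a := K - T) ?_
    (fun x _ => by ring) ?_
  · refine U_of (A := K) (fun x y hx hxy => ?_) (fun x hx => ?_)
    · have e1 : min x K ≤ min y K := min_le_min_right _ hxy
      have e2 : min y K ≤ min x K + (y - x) := by
        rcases le_total x K with h | h
        · rw [min_eq_left h]
          exact (min_le_left _ _).trans (by linarith)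
        · rw [min_eq_right h]
          exact (min_le_right _ _).trans (by linarith)
      constructor
      · have : max (min x K - T) 0 ≤ max (min y K - T) 0 := max_le_max (by linarith) le_rfl
        linarith
      · have : max (min y K - T) 0 ≤ max (min x K - T) 0 + (y - x) := by
          refine max_le ?_ ?_
          · have := le_max_left (min x K - T) 0
            linarith
          · have := le_max_right (min x K - T) 0
            linarith
        linarith
    · show (K - T) - max (min x K - T) 0 = 0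
      rw [min_eq_right hx, max_eq_left (by linarith), sub_self]
  · show max (min 0 K - T) 0 = 0
    rw [min_eq_left (hT.trans hTK)]
    exact max_eq_right (by linarith)

lemma UU_two {T T' K : ℝ} (hT : 0 ≤ T) (h : T ≤ T') (hTK : T' ≤ K) :
    UU (fun x => max (min x K - T) 0 - max (min x K - T') 0) := by
  refine UU_of (g' := fun x => (T' - T) - (max (min x K - T) 0 - max (min x K - T') 0))
    (a := T' - T) ?_ (fun x _ => by ring) ?_
  · refine U_of (A := K) (fun x y hx hxy => ?_) (fun x hx => ?_)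
    · have e1 : min x K ≤ min y K := min_le_min_right _ hxy
      have e2 : min y K ≤ min x K + (y - x) := by
        rcases le_total x K with h | h
        · rw [min_eq_left h]
          exact (min_le_left _ _).trans (by linarith)
        · rw [min_eq_right h]
          exact (min_le_right _ _).trans (by linarith)
      show T' - T - (max (min y K - T) 0 - max (min y K - T') 0) ≤
          T' - T - (max (min x K - T) 0 - max (min x K - T') 0) ∧
        T' - T - (max (min x K - T) 0 - max (min x K - T') 0) ≤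
          T' - T - (max (min y K - T) 0 - max (min y K - T') 0) + (y - x)
      generalize min x K = a at *
      generalize min y K = b at *
      rcases le_total (a - T) 0 with h1 | h1 <;> rcases le_total (a - T') 0 with h2 | h2 <;>
      rcases le_total (b - T) 0 with h3 | h3 <;> rcases le_total (b - T') 0 with h4 | h4 <;>
      simp only [h1, h2, h3, h4, max_eq_left, max_eq_right] <;> constructor <;> linarith
    · show T' - T - (max (min x K - T) 0 - max (min x K - T') 0) = 0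
      rw [min_eq_right hx, max_eq_left (by linarith), max_eq_left (by linarith)]
      ring
  · show max (min 0 K - T) 0 - max (min 0 K - T') 0 = 0
    rw [min_eq_left (by linarith), max_eq_right (by linarith), max_eq_right (by linarith),
      sub_self]

lemma UU_bdd {g : ℝ → ℝ} (hg : UU g) : ∃ B : ℝ, 0 < B ∧ ∀ x, 0 ≤ x → |g x| ≤ B := by
  obtain ⟨β, _, c, t, hc, h⟩ := hg 1 one_pos
  refine ⟨1 + ∑ b, c b, ?_, fun x hx => ?_⟩
  · have := Finset.sum_nonneg (s := Finset.univ) (fun b _ => hc b)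
    linarith
  · have h1 := h x hx
    have h2 : |∑ b, c b * indu1 (t b) x| ≤ ∑ b, c b := by
      rw [abs_of_nonneg (Finset.sum_nonneg fun b _ => mul_nonneg (hc b) (indu1_01 _ _).1)]
      refine Finset.sum_le_sum fun b _ => ?_
      have := (indu1_01 (t b) x).2
      nlinarith [hc b]
    calc |g x| = |(g x - ∑ b, c b * indu1 (t b) x) + ∑ b, c b * indu1 (t b) x| := by ring_nf
      _ ≤ _ := abs_add_le _ _
      _ ≤ _ := add_le_add h1 h2

lemma KU_bdd {I : Finset ℕ} {f : (ℕ → ℝ) → ℝ} (hf : KU I f) :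
    ∃ B : ℝ, 0 < B ∧ ∀ x : ℕ → ℝ, (∀ i, 0 ≤ x i) → |f x| ≤ B := by
  obtain ⟨β, _, c, s, hc, h⟩ := hf 1 one_pos
  refine ⟨1 + ∑ b, c b, ?_, fun x hx => ?_⟩
  · have := Finset.sum_nonneg (s := Finset.univ) (fun b _ => hc b)
    linarith
  · have h1 := h x hx
    have h2 : |∑ b, c b * indu I (s b) x| ≤ ∑ b, c b := by
      rw [abs_of_nonneg (Finset.sum_nonneg fun b _ => mul_nonneg (hc b) (indu_01 _ _ _).1)]
      refine Finset.sum_le_sum fun b _ => ?_
      have := (indu_01 I (s b) x).2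
      nlinarith [hc b]
    calc |f x| = |(f x - ∑ b, c b * indu I (s b) x) + ∑ b, c b * indu I (s b) x| := by ring_nf
      _ ≤ _ := abs_add_le _ _
      _ ≤ _ := add_le_add h1 h2

lemma indu_insert {I : Finset ℕ} {a : ℕ} (ha : a ∉ I) (s x : ℕ → ℝ) (t : ℝ) :
    indu (insert a I) (Function.update s a t) x = indu1 t (x a) * indu I s x := by
  unfold indu indu1
  have h : (∀ i ∈ insert a I, Function.update s a t i < x i) ↔ t < x a ∧ ∀ i ∈ I, s i < x i := by
    rw [Finset.forall_mem_insert, Function.update_self]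
    refine and_congr_right fun _ => forall₂_congr fun i hi => ?_
    have hia : i ≠ a := fun h => ha (by rwa [h] at hi)
    rw [Function.update_of_ne hia]
  by_cases h1 : t < x a <;> by_cases h2 : ∀ i ∈ I, s i < x i
  · rw [if_pos (h.2 ⟨h1, h2⟩), if_pos h1, if_pos h2, one_mul]
  · rw [if_neg (fun h3 => h2 (h.1 h3).2), if_neg h2, mul_zero]
  · rw [if_neg (fun h3 => h1 (h.1 h3).1), if_neg h1, zero_mul]
  · rw [if_neg (fun h3 => h1 (h.1 h3).1), if_neg h1, zero_mul]

lemma KU_mul {I : Finset ℕ} {f : (ℕ → ℝ) → ℝ} {g : ℝ → ℝ} {a : ℕ} (ha : a ∉ I) (hf : KU I f)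
    (hg : UU g) : KU (insert a I) (fun x => g (x a) * f x) := by
  intro η hη
  obtain ⟨Bf, hBf0, hBf⟩ := KU_bdd hf
  obtain ⟨Bg, hBg0, hBg⟩ := UU_bdd hg
  obtain ⟨β, _, c, s, hc, h⟩ := hf (η / (2 * (Bg + 1))) (by positivity)
  obtain ⟨γ, _, c', t, hc', h'⟩ := hg (min 1 (η / (2 * Bf))) (by positivity)
  refine ⟨γ × β, inferInstance, fun p => c' p.1 * c p.2,
    fun p => Function.update (s p.2) a (t p.1), fun p => mul_nonneg (hc' _) (hc _), ?_⟩
  intro x hx
  have e1 : ∑ p : γ × β, c' p.1 * c p.2 * indu (insert a I) (Function.update (s p.2) a (t p.1)) x =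
      (∑ b, c' b * indu1 (t b) (x a)) * ∑ b, c b * indu I (s b) x := by
    rw [Finset.sum_mul_sum, Fintype.sum_prod_type]
    refine Finset.sum_congr rfl fun b _ => Finset.sum_congr rfl fun b' _ => ?_
    simp only
    rw [indu_insert ha]
    ring
  simp only
  rw [e1]
  have h1 := h x hx
  have h2 := h' (x a) (hx a)
  have h3 := hBf x hx
  have h4 := hBg (x a) (hx a)
  generalize (∑ b, c' b * indu1 (t b) (x a)) = G at *
  generalize (∑ b, c b * indu I (s b) x) = H at *
  have h5 : |G| ≤ Bg + 1 := by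
    calc |G| = |g (x a) - (g (x a) - G)| := by ring_nf
      _ ≤ |g (x a)| + |g (x a) - G| := abs_sub _ _
      _ ≤ Bg + 1 := add_le_add h4 (h2.trans (min_le_left _ _))
  have h6 : |g (x a) - G| ≤ η / (2 * Bf) := h2.trans (min_le_right _ _)
  calc |g (x a) * f x - G * H| = |(g (x a) - G) * f x + G * (f x - H)| := by ring_nf
    _ ≤ |g (x a) - G| * |f x| + |G| * |f x - H| := by
        refine (abs_add_le _ _).trans ?_
        rw [abs_mul, abs_mul]
    _ ≤ η / (2 * Bf) * Bf + (Bg + 1) * (η / (2 * (Bg + 1))) := by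
        refine add_le_add (mul_le_mul h6 h3 (abs_nonneg _) (by positivity))
          (mul_le_mul h5 h1 (abs_nonneg _) (by positivity))
    _ = η := by
        field_simp
        ring

lemma KU_add {I : Finset ℕ} {f f' : (ℕ → ℝ) → ℝ} (hf : KU I f) (hf' : KU I f') :
    KU I (fun x => f x + f' x) := by
  intro η hη
  obtain ⟨β, _, c, s, hc, h⟩ := hf (η / 2) (by positivity)
  obtain ⟨γ, _, c', s', hc', h'⟩ := hf' (η / 2) (by positivity)
  refine ⟨β ⊕ γ, inferInstance, Sum.elim c c', Sum.elim s s', ?_, fun x hx => ?_⟩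
  · rintro (b | b)
    · exact hc b
    · exact hc' b
  · rw [Fintype.sum_sum_type]
    simp only [Sum.elim_inl, Sum.elim_inr]
    have h1 := h x hx
    have h2 := h' x hx
    calc _ = |(f x - ∑ b, c b * indu I (s b) x) + (f' x - ∑ b, c' b * indu I (s' b) x)| := by
          congr 1
          ring
      _ ≤ _ := abs_add_le _ _
      _ ≤ η / 2 + η / 2 := add_le_add h1 h2
      _ = η := by ring

/-- the truncated products -/
noncomputable def tp (K : ℝ) (T : ℕ → ℝ) (I : Finset ℕ) (x : ℕ → ℝ) : ℝ :=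
  ∏ i ∈ I, max (min (x i) K - T i) 0

lemma KU_prod {K : ℝ} (T T' : ℕ → ℝ) (hT : ∀ i, 0 ≤ T i ∧ T i ≤ T' i) (I : Finset ℕ)
    (hK : ∀ i ∈ I, T' i ≤ K) :
    KU I (tp K T' I) ∧ KU I (fun x => tp K T I x - tp K T' I x) := by
  induction I using Finset.induction_on with
  | empty =>
    constructor
    · intro η hη
      refine ⟨Unit, inferInstance, fun _ => 1, fun _ _ => 0, fun _ => zero_le_one, fun x _ => ?_⟩
      simp only [tp, Finset.prod_empty, indu, Finset.notMem_empty]
      simp [hη.le]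
    · intro η hη
      refine ⟨Unit, inferInstance, fun _ => 0, fun _ _ => 0, fun _ => le_rfl, fun x _ => ?_⟩
      simp [tp, hη.le]
  | insert a I ha ih =>
    obtain ⟨ih1, ih2⟩ := ih fun i hi => hK i (Finset.mem_insert_of_mem hi)
    have hKa := hK a (Finset.mem_insert_self a I)
    have h1 := KU_mul ha ih1 (UU_one ((hT a).1.trans (hT a).2) hKa)
    have h2 := KU_add (KU_mul ha ih2 (UU_one (hT a).1 ((hT a).2.trans hKa)))
      (KU_mul ha ih1 (UU_two (hT a).1 (hT a).2 hKa))
    constructor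
    · refine Eq.mp ?_ h1
      congr 1
      funext x
      unfold tp
      rw [Finset.prod_insert ha]
    · refine Eq.mp ?_ h2
      congr 1
      funext x
      unfold tp
      rw [Finset.prod_insert ha, Finset.prod_insert ha]
      ring

lemma meas_tp (K : ℝ) (T : ℕ → ℝ) (I : Finset ℕ) : Measurable (tp K T I) := by
  unfold tp
  refine Finset.measurable_prod _ fun i _ => ?_
  exact (((measurable_pi_apply i).min measurable_const).sub measurable_const).max measurable_const

lemma meas_up (T : ℕ → ℝ) (I : Finset ℕ) :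
    Measurable (fun x : ℕ → ℝ => ∏ i ∈ I, max (x i - T i) 0) := by
  refine Finset.measurable_prod _ fun i _ => ?_
  exact ((measurable_pi_apply i).sub measurable_const).max measurable_const

lemma KU_int {I : Finset ℕ} {f : (ℕ → ℝ) → ℝ} (hf : KU I f) (hm : Measurable f)
    (μ : Measure (ℕ → ℝ)) [IsProbabilityMeasure μ] (hμ : ∀ i, ∀ᵐ x ∂μ, 0 ≤ x i) :
    Integrable f μ := by
  obtain ⟨B, -, hB⟩ := KU_bdd hf
  refine Integrable.of_bound hm.aestronglyMeasurable B ?_
  filter_upwards [ae_all_iff.2 hμ] with x hx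
  exact hB x hx

lemma meas_orthU (I : Finset ℕ) (s : ℕ → ℝ) : MeasurableSet {x : ℕ → ℝ | ∀ i ∈ I, s i < x i} := by
  have : {x : ℕ → ℝ | ∀ i ∈ I, s i < x i} = ⋂ i ∈ I, {x : ℕ → ℝ | s i < x i} := by
    ext x
    simp
  rw [this]
  exact Finset.measurableSet_biInter _ fun i _ =>
    measurableSet_lt measurable_const (measurable_pi_apply i)

lemma indu_eq (I : Finset ℕ) (s : ℕ → ℝ) :
    indu I s = Set.indicator {x : ℕ → ℝ | ∀ i ∈ I, s i < x i} (fun _ => (1 : ℝ)) := by
  funext x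
  unfold indu
  by_cases h : ∀ i ∈ I, s i < x i
  · rw [if_pos h, Set.indicator_of_mem (show x ∈ {x : ℕ → ℝ | ∀ i ∈ I, s i < x i} from h)]
  · rw [if_neg h, Set.indicator_of_notMem (show x ∉ {x : ℕ → ℝ | ∀ i ∈ I, s i < x i} from h)]

lemma int_indu (I : Finset ℕ) (s : ℕ → ℝ) (μ : Measure (ℕ → ℝ)) [IsProbabilityMeasure μ] :
    Integrable (indu I s) μ ∧ ∫ x, indu I s x ∂μ = FU μ I s := by
  rw [indu_eq]
  constructor
  · exact (integrable_const _).indicator (meas_orthU I s)
  · rw [integral_indicator_const _ (meas_orthU I s), smul_eq_mul, mul_one]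
    rfl

lemma KU_approx {I : Finset ℕ} {f : (ℕ → ℝ) → ℝ} (hf : KU I f) (hm : Measurable f)
    (μ : Measure (ℕ → ℝ)) [IsProbabilityMeasure μ] (hμ : ∀ i, ∀ᵐ x ∂μ, 0 ≤ x i) {η : ℝ}
    {β : Type} [Fintype β] (c : β → ℝ) (s : β → ℕ → ℝ)
    (h : ∀ x : ℕ → ℝ, (∀ i, 0 ≤ x i) → |f x - ∑ b, c b * indu I (s b) x| ≤ η) :
    |∫ x, f x ∂μ - ∑ b, c b * FU μ I (s b)| ≤ η := by
  have h1 : ∑ b, c b * FU μ I (s b) = ∫ x, ∑ b, c b * indu I (s b) x ∂μ := by
    rw [integral_finsetSum _ fun b _ => (int_indu I (s b) μ).1.const_mul _]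
    refine Finset.sum_congr rfl fun b _ => ?_
    rw [integral_const_mul, (int_indu I (s b) μ).2]
  have h2 : Integrable (fun x => ∑ b, c b * indu I (s b) x) μ :=
    integrable_finsetSum _ fun b _ => (int_indu I (s b) μ).1.const_mul _
  rw [h1, ← integral_sub (KU_int hf hm μ hμ) h2]
  have h3 := norm_integral_le_of_norm_le_const (μ := μ) (C := η)
    (f := fun x => f x - ∑ b, c b * indu I (s b) x) (by
      filter_upwards [ae_all_iff.2 hμ] with x hx
      exact h x hx)
  rwa [probReal_univ, mul_one] at h3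

section

variable {ι : Type} {L : Filter ι} {P Q : ι → Measure (ℕ → ℝ)}

lemma KU_D (hP : Good L P) (hQ : Good L Q)
    {I : Finset ℕ} (hI : ∀ s : ℕ → ℝ, ∀ ε : ℝ, 0 < ε → ∀ᶠ j in L, FU (P j) I s ≤ FU (Q j) I s + ε)
    {f : (ℕ → ℝ) → ℝ} (hf : KU I f) (hm : Measurable f) {ε : ℝ} (hε : 0 < ε) :
    ∀ᶠ j in L, D P Q j f ≤ ε := by
  obtain ⟨β, _, c, s, hc, h⟩ := hf (ε / 4) (by positivity)
  have hC : 0 ≤ ∑ b, c b := Finset.sum_nonneg fun b _ => hc b
  have h1 : ∀ᶠ j in L, ∀ b, FU (P j) I (s b) ≤ FU (Q j) I (s b) + ε / (2 * (1 + ∑ b, c b)) :=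
    eventually_all.2 fun b => hI (s b) _ (by positivity)
  filter_upwards [h1] with j hj
  have := hP.prob j
  have := hQ.prob j
  have h2 := KU_approx hf hm (P j) (hP.nn j) c s h
  have h3 := KU_approx hf hm (Q j) (hQ.nn j) c s h
  have h4 : ∑ b, c b * FU (P j) I (s b) ≤ ∑ b, c b * FU (Q j) I (s b) + ε / 2 := by
    have h5 : ∑ b, c b * FU (P j) I (s b) ≤
        ∑ b, (c b * FU (Q j) I (s b) + c b * (ε / (2 * (1 + ∑ b, c b)))) := by
      refine Finset.sum_le_sum fun b _ => ?_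
      rw [← mul_add]
      exact mul_le_mul_of_nonneg_left (hj b) (hc b)
    refine h5.trans ?_
    rw [Finset.sum_add_distrib, ← Finset.sum_mul]
    have h6 : (∑ b, c b) * (ε / (2 * (1 + ∑ b, c b))) ≤ ε / 2 := by
      rw [mul_div_assoc', div_le_iff₀ (by positivity)]
      nlinarith
    linarith
  unfold D
  rw [abs_le] at h2 h3
  linarith [h2.1, h2.2, h3.1, h3.2]

/-- the majorant -/
noncomputable def G (I : Finset ℕ) (x : ℕ → ℝ) : ℝ := ∏ i ∈ I, (1 + |x i|) ^ 2

lemma G_nonneg (I : Finset ℕ) (x : ℕ → ℝ) : 0 ≤ G I x :=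
  Finset.prod_nonneg fun _ _ => sq_nonneg _

/-- The products are close to their truncations. -/
lemma trunc_le (T : ℕ → ℝ) (hT : ∀ i, 0 ≤ T i) (I : Finset ℕ) {K : ℝ} (hK : 0 < K)
    (x : ℕ → ℝ) (hx : ∀ i, 0 ≤ x i) :
    |∏ i ∈ I, max (x i - T i) 0 - tp K T I x| ≤ 1 / K * G I x := by
  by_cases h : ∀ i ∈ I, x i ≤ K
  · have h1 : tp K T I x = ∏ i ∈ I, max (x i - T i) 0 := by
      unfold tp
      refine Finset.prod_congr rfl fun i hi => ?_
      rw [min_eq_left (h i hi)]
    rw [h1, sub_self, abs_zero]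
    exact mul_nonneg (by positivity) (G_nonneg I x)
  · push Not at h
    obtain ⟨a, ha, hxa⟩ := h
    have h1 : 0 ≤ tp K T I x := Finset.prod_nonneg fun _ _ => le_max_right _ _
    have h2 : tp K T I x ≤ ∏ i ∈ I, max (x i - T i) 0 := by
      unfold tp
      refine Finset.prod_le_prod (fun _ _ => le_max_right _ _) fun i _ => ?_
      exact max_le_max (by linarith [min_le_left (x i) K]) le_rfl
    have h3 : ∏ i ∈ I, max (x i - T i) 0 ≤ ∏ i ∈ I, (1 + |x i|) := by
      refine Finset.prod_le_prod (fun _ _ => le_max_right _ _) fun i _ => ?_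
      refine max_le ?_ (by positivity)
      rw [abs_of_nonneg (hx i)]
      linarith [hT i]
    have h4 : 1 + |x a| ≤ ∏ i ∈ I, (1 + |x i|) := by
      rw [← Finset.mul_prod_erase I _ ha]
      have : (1 : ℝ) ≤ ∏ i ∈ I.erase a, (1 + |x i|) :=
        Finset.one_le_prod fun i _ => by linarith [abs_nonneg (x i)]
      nlinarith [abs_nonneg (x a)]
    have h5 : 1 ≤ 1 / K * (1 + |x a|) := by
      rw [abs_of_nonneg (hx a), one_div, ← div_eq_inv_mul, le_div_iff₀ hK]
      linarith
    have h6 : G I x = (∏ i ∈ I, (1 + |x i|)) * ∏ i ∈ I, (1 + |x i|) := by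
      unfold G
      rw [← Finset.prod_mul_distrib]
      exact Finset.prod_congr rfl fun i _ => sq _
    have h7 : 0 ≤ ∏ i ∈ I, (1 + |x i|) := Finset.prod_nonneg fun _ _ => by positivity
    rw [abs_of_nonneg (by linarith)]
    calc ∏ i ∈ I, max (x i - T i) 0 - tp K T I x ≤ ∏ i ∈ I, (1 + |x i|) := by linarith
      _ ≤ (1 / K * (1 + |x a|)) * ∏ i ∈ I, (1 + |x i|) := by nlinarith
      _ ≤ (1 / K * ∏ i ∈ I, (1 + |x i|)) * ∏ i ∈ I, (1 + |x i|) := by
          refine mul_le_mul_of_nonneg_right ?_ h7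
          exact mul_le_mul_of_nonneg_left h4 (by positivity)
      _ = 1 / K * G I x := by rw [h6]; ring

/-- Removal of the truncation. -/
lemma D_trunc (hint : S_INT) (hP : Good L P) (hQ : Good L Q) (I : Finset ℕ)
    {f : (ℕ → ℝ) → ℝ} (fK : ℝ → (ℕ → ℝ) → ℝ) (hm : Measurable f) {c K₀ : ℝ} (hc : 0 ≤ c)
    (hmK : ∀ K, Measurable (fK K))
    (hbd : ∀ K, K₀ ≤ K → 0 < K → ∀ x : ℕ → ℝ, (∀ i, 0 ≤ x i) → |f x - fK K x| ≤ c / K * G I x)
    (hK : ∀ K, K₀ ≤ K → 0 < K → KU I (fK K))
    (hI : ∀ s : ℕ → ℝ, ∀ ε : ℝ, 0 < ε → ∀ᶠ j in L, FU (P j) I s ≤ FU (Q j) I s + ε)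
    {ε : ℝ} (hε : 0 < ε) : ∀ᶠ j in L, D P Q j f ≤ ε := by
  obtain ⟨hPi, CP, hCP⟩ := hint hP I 2
  obtain ⟨hQi, CQ, hCQ⟩ := hint hQ I 2
  obtain ⟨K, hK0, hK1, hKe⟩ : ∃ K : ℝ, K₀ ≤ K ∧ 0 < K ∧ c / K * (|CP| + |CQ|) ≤ ε / 2 := by
    refine ⟨max K₀ (1 + 2 * (c * (|CP| + |CQ|)) / ε), le_max_left _ _, ?_, ?_⟩
    · refine lt_of_lt_of_le ?_ (le_max_right _ _)
      positivity
    · have h1 : 1 + 2 * (c * (|CP| + |CQ|)) / ε ≤ max K₀ (1 + 2 * (c * (|CP| + |CQ|)) / ε) :=
        le_max_right _ _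
      have h0 : 0 < 1 + 2 * (c * (|CP| + |CQ|)) / ε := by positivity
      rw [div_mul_eq_mul_div, div_le_iff₀ (h0.trans_le h1)]
      have h2 : c * (|CP| + |CQ|) ≤ ε / 2 * (1 + 2 * (c * (|CP| + |CQ|)) / ε) := by
        have : ε / 2 * (1 + 2 * (c * (|CP| + |CQ|)) / ε) = ε / 2 + c * (|CP| + |CQ|) := by
          field_simp
        rw [this]
        linarith
      exact h2.trans (mul_le_mul_of_nonneg_left h1 (by positivity))
  have h1 := KU_D hP hQ hI (hK K hK0 hK1) (hmK K) (ε := ε / 2) (by positivity)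
  filter_upwards [h1, hCP, hCQ] with j hj hj1 hj2
  have := hP.prob j
  have := hQ.prob j
  have hcK : 0 ≤ c / K := by positivity
  have key : ∀ (μ : Measure (ℕ → ℝ)) [IsProbabilityMeasure μ], (∀ i, ∀ᵐ x ∂μ, 0 ≤ x i) →
      Integrable (fun x : ℕ → ℝ => ∏ i ∈ I, (1 + |x i|) ^ 2) μ → ∀ C : ℝ,
      ∫ x, ∏ i ∈ I, (1 + |x i|) ^ 2 ∂μ ≤ C → |∫ x, f x ∂μ - ∫ x, fK K x ∂μ| ≤ c / K * |C| := by
    intro μ _ hμ hGi C hC
    have hGi' : Integrable (G I) μ := hGi
    have hae : ∀ᵐ x ∂μ, ‖f x - fK K x‖ ≤ c / K * G I x := by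
      filter_upwards [ae_all_iff.2 hμ] with x hx
      exact hbd K hK0 hK1 x hx
    have hi1 : Integrable (fun x => f x - fK K x) μ :=
      Integrable.mono' (hGi'.const_mul _) (hm.sub (hmK K)).aestronglyMeasurable hae
    have hi2 : Integrable (fK K) μ := KU_int (hK K hK0 hK1) (hmK K) μ hμ
    have hi3 : Integrable f μ := by
      have := hi1.add hi2
      refine this.congr (Filter.Eventually.of_forall fun x => ?_)
      show f x - fK K x + fK K x = f x
      ring
    rw [← integral_sub hi3 hi2]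
    have h5 := norm_integral_le_of_norm_le (hGi'.const_mul (c / K)) hae
    rw [Real.norm_eq_abs, integral_const_mul] at h5
    refine h5.trans (mul_le_mul_of_nonneg_left ?_ hcK)
    exact le_trans hC (le_abs_self C)
  have k1 := key (P j) (hP.nn j) (hPi j) CP hj1
  have k2 := key (Q j) (hQ.nn j) (hQi j) CQ hj2
  unfold D at hj ⊢
  rw [abs_le] at k1 k2
  rw [mul_add] at hKe
  linarith [k1.1, k1.2, k2.1, k2.2]

end

theorem ORDV : Pool.Agent.N805.JG.S_ORDV := by
  intro hint ι L P Q hP hQ I hI T hT ε hε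
  refine D_trunc hint hP hQ I (fun K => tp K T I) (meas_up T I) (c := 1)
    (K₀ := 1 + ∑ i ∈ I, T i) zero_le_one (fun K => meas_tp K T I)
    (fun K _ hK x hx => trunc_le T hT I hK x hx) (fun K hK _ => ?_) hI hε
  refine (KU_prod T T (fun i => ⟨hT i, le_rfl⟩) I fun i hi => ?_).1
  have := Finset.single_le_sum (f := T) (fun i _ => hT i) hi
  linarith

theorem ORDU : Pool.Agent.N805.JG.S_ORDU := by
  intro hint ι L P Q hP hQ I hI T T' hT ε hε
  have hT' : ∀ i, 0 ≤ T' i := fun i => (hT i).1.trans (hT i).2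
  have h1 : ∀ᶠ j in L, D P Q j
      (fun x => ∏ i ∈ I, max (x i - T i) 0 - ∏ i ∈ I, max (x i - T' i) 0) ≤ ε := by
    refine D_trunc hint hP hQ I (fun K x => tp K T I x - tp K T' I x)
      ((meas_up T I).sub (meas_up T' I)) (c := 2)
      (K₀ := 1 + ∑ i ∈ I, T' i) zero_le_two (fun K => (meas_tp K T I).sub (meas_tp K T' I))
      (fun K _ hK x hx => ?_) (fun K hK _ => ?_) hI hε
    · have e1 := trunc_le T (fun i => (hT i).1) I hK x hx
      have e2 := trunc_le T' hT' I hK x hx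
      calc |∏ i ∈ I, max (x i - T i) 0 - ∏ i ∈ I, max (x i - T' i) 0 -
            (tp K T I x - tp K T' I x)| =
          |(∏ i ∈ I, max (x i - T i) 0 - tp K T I x) -
            (∏ i ∈ I, max (x i - T' i) 0 - tp K T' I x)| := by congr 1; ring
        _ ≤ |∏ i ∈ I, max (x i - T i) 0 - tp K T I x| +
            |∏ i ∈ I, max (x i - T' i) 0 - tp K T' I x| := abs_sub _ _
        _ ≤ 1 / K * G I x + 1 / K * G I x := add_le_add e1 e2
        _ = 2 / K * G I x := by ring
    · refine (KU_prod T T' hT I fun i hi => ?_).2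
      have := Finset.single_le_sum (f := T') (fun i _ => hT' i) hi
      linarith
  have hint2 : ∀ (S : ℕ → ℝ) (μ : Measure (ℕ → ℝ)), (∀ i, 0 ≤ S i) → (∀ i, ∀ᵐ x ∂μ, 0 ≤ x i) →
      Integrable (fun x : ℕ → ℝ => ∏ i ∈ I, (1 + |x i|) ^ 1) μ →
      Integrable (fun x : ℕ → ℝ => ∏ i ∈ I, max (x i - S i) 0) μ := by
    intro S μ hS hμ hi
    refine Integrable.mono' hi (meas_up S I).aestronglyMeasurable ?_
    filter_upwards [ae_all_iff.2 hμ] with x hx
    rw [Real.norm_eq_abs, abs_of_nonneg (Finset.prod_nonneg fun _ _ => le_max_right _ _)]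
    refine Finset.prod_le_prod (fun _ _ => le_max_right _ _) fun i _ => ?_
    refine max_le ?_ (by positivity)
    rw [pow_one, abs_of_nonneg (hx i)]
    linarith [hS i]
  filter_upwards [h1] with j hj
  refine le_trans (le_of_eq ?_) hj
  have hPi := (hint hP I 1).1 j
  have hQi := (hint hQ I 1).1 j
  unfold D
  rw [integral_sub (hint2 T _ (fun i => (hT i).1) (hP.nn j) hPi)
    (hint2 T' _ hT' (hP.nn j) hPi),
    integral_sub (hint2 T _ (fun i => (hT i).1) (hQ.nn j) hQi)
    (hint2 T' _ hT' (hQ.nn j) hQi)]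
  ring

end Pool.Agent.N427.JG
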